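import Pool.Agent.Helper24.KP.Sgn
import Pool.Agent.Helper24.KE.Sz
import Pool.Agent.Helper24.SE.Disj

/-!
# The parity conjecture and sparse exceptions for plane curves and surfaces in space

Let `k` be a number field and `C` the category of Chow motives over `k` with rational coefficients. For a
motive `N` let `hom N = CH^0(N)_hom ⊗ ℚ` be the space of the homologically trivial cycles of degree zero, and
`root N = ±1` the root number of the symplectic Galois representation `H^{-1}(N)`. If `X` is smooth and
projective and `N = h(X)(1)`, then `hom N = Pic^0(X) ⊗ ℚ` has the dimension `rk Pic X(k)` and `root N` is the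
product of the local root numbers of the Picard variety `Pic X`. So the parity conjecture for `Pic X`
(`Par (Pic X)`) says that the sign `root N · (-1)^{dim hom N}` of `N = h(X)(1)` is `1`.

For a separated scheme `X` of finite type over `k` let `W(X)` be its weight complex with compact supports
(Gillet, Soulé), a bounded complex of Chow motives, well defined up to homotopy. The parity formula with index
`n` for `X` (`Parity n X`) says that `W(X)(n)` is represented by a bounded complex `L` of motives with finite
dimensional spaces `hom (L^i)`, such that the product of the signs `root (L^i) · (-1)^{dim hom (L^i)}` is `1`.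
(It is the same for all such complexes `L`. For `n = 1` it is the parity conjecture for the abelian variety
with `H^1 = Gr^W_1 H^*_c(X)`.) We look at the complements `D(F) : F ≠ 0` of the plane curves
`F(x, y) = 0` and of the surfaces `F(x, y, z) = 0`, with coefficients in `ℤ`, which may be very singular and
reducible. Let `Box r D B` be the finite set of the `F ∈ ℤ[x_1, …, x_r]` of degree at most `D` in each
variable, for which the sum of the absolute values of the coefficients is at most `B`. The exceptions are the
`F` for which the parity formula for `D(F)` with index `1` is false, and `Exc(D, B)` is the set of the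
exceptions in the box.

**Theorem.** (1) The parity conjecture is true for all abelian varieties over all number fields if and only if
the exceptional sets of polynomials in three variables have a power saving: for some `ε > 0` there are
infinitely many `D` and for these infinitely many `B` such that `#Exc(D, B) ≤ #Box(D, B) ^ (1 - ε)`.

(2) The parity conjecture is true for the Jacobians of all smooth projective curves over all number fields if
and only if this holds for the polynomials in two variables.

A zero–one law: if there is one exception in `r` variables, then for every `ε > 0`, for all large `D` and all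
large `B` (depending on `D`) there are more than `#Box(D, B) ^ (1 - ε)` exceptions.

(3) Let `F`, `H` be polynomials over a number field, such that the hypersurfaces `F = 0` and `H = 0` are
disjoint, for example `H = 1 + F P`. If the formula is false for `D(F)`, then it is true for exactly one of
`D(H)` and `D(F H)`.

(4) The formula with index `1` for `D(F)`, `F ∈ k[x_1, …, x_r]`, is equivalent to the formula with index `2`
for the smooth affine variety `t ^ 2 - t = y F(x)`.

(5) Over one number field `k`: the parity conjecture for all abelian varieties over `k` is equivalent to the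
formula for all `D(F)`, `F ∈ k[x, y, z]`.
-/

set_option autoImplicit false
set_option linter.checkUnivs false

open CategoryTheory Limits AlgebraicGeometry Pool.Agent.Y116.UV Pool.Agent.Q282.UM
  Pool.Agent.Q282.UK Pool.Agent.Helper62.EC Pool.Agent.Helper62.DB Pool.Agent.Helper24.KD
  Pool.Agent.Helper24.KP Filter

open Pool.Agent.Helper24.KZ (Mult)

open Pool.Agent.Helper24.KE (V U)

open Pool.Agent.Helper24.SE (Box Exc Saving span_one full saving_iff)

universe v u

namespace Pool.Agent.Results.MP_ac3185_nt.SparseExceptions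

/-- The principal open subset `D(F) : F ≠ 0` of the affine space over `k`. -/
noncomputable def princ {k : Type} [Field k] {r : ℕ} (F : MvPolynomial (Fin r) k) : Sch k :=
  aff k (Localization.Away F)

/-- The variety `t ^ 2 - t = y F(x)` over `k`. -/
noncomputable def dblS {k : Type} [Field k] {r : ℕ} (F : MvPolynomial (Fin r) k) : Sch k :=
  aff k (Db F)

/-- The polynomial with rational coefficients. -/
noncomputable def rat {r : ℕ} (F : MvPolynomial (Fin r) ℤ) : MvPolynomial (Fin r) ℚ :=
  MvPolynomial.map (algebraMap ℤ ℚ) F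

/-- The category `C` of Chow motives over `k`, with

* the motives `h(X)`, the Tate twists `N(n)` and the weight complexes `W(X)` (`Weights`);
* the spaces `hom N` and the root numbers `root N`;
* the abelian varieties over `k`, with their ranks and the products `sign` of their local root numbers;
* the Picard varieties `Pic X` of the smooth projective schemes `X`. -/
structure Mot (k : Type) [Field k] where
  C : Type u
  [cat : Category.{v} C]
  [pre : Preadditive C]
  [zero : HasZeroObject C]
  [bin : HasBinaryBiproducts C]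
  [fin : HasFiniteBiproducts C]
  D : Weights k C
  hom : C ⥤ ModuleCat.{0} ℚ
  [additive : hom.Additive]
  root : C → ℤˣ
  Ab : Type
  rank : Ab → ℕ
  sign : Ab → ℤˣ
  Pic : Sch k → Ab

attribute [instance] Mot.cat Mot.pre Mot.zero Mot.bin Mot.fin Mot.additive

section

variable {k : Type} [Field k] (M : Mot.{v, u} k)

/-- The motive `h(X)(n)`. -/
noncomputable def Mot.motive (n : ℤ) (X : Sch k) : M.C := (M.D.tw n).obj (M.D.h X)

/-- The parity conjecture for the abelian variety `A`. -/
def Par (A : M.Ab) : Prop := M.sign A = (-1) ^ M.rank A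

/-- The parity formula with index `n` for `X`. -/
def Parity (n : ℤ) (X : Sch k) : Prop := QS M.hom M.root M.D n X 1

end

/-- The known properties.

* `weight`: the weight complexes;
* `mult`: root numbers are multiplicative in sums;
* `points`: `CH^n(X)_hom = 0` and `H^{2n-1}(X) = 0` if `dim X = 0`;
* `picard`: the properties of the Picard variety (Mordell–Weil);
* `lefschetz`: every abelian variety is the Picard variety of a smooth projective surface or curve;
* `restrict`: a smooth projective scheme over `k` is a smooth projective scheme over `ℚ`; the Picard variety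
  is replaced by its restriction of scalars. -/
structure Known (M : ∀ (k : Type) [Field k] [NumberField k], Mot.{v, u} k) : Prop where
  weight : ∀ (k : Type) [Field k] [NumberField k], IsWeightComplex (M k).D
  mult : ∀ (k : Type) [Field k] [NumberField k], Mult (fun _ => True) (M k).root
  points : ∀ (k : Type) [Field k] [NumberField k] (X : Sch k), IsSmoothProjective X →
    topologicalKrullDim X.left ≤ (0 : ℕ) → ∀ n : ℤ,
      Subsingleton ((M k).hom.obj ((M k).motive n X)) ∧ (M k).root ((M k).motive n X) = 1
  picard : ∀ (k : Type) [Field k] [NumberField k] (X : Sch k), IsSmoothProjective X →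
    Module.Finite ℚ ((M k).hom.obj ((M k).motive 1 X)) ∧
      Module.finrank ℚ ((M k).hom.obj ((M k).motive 1 X)) = (M k).rank ((M k).Pic X) ∧
        (M k).root ((M k).motive 1 X) = (M k).sign ((M k).Pic X)
  lefschetz : ∀ (k : Type) [Field k] [NumberField k] (A : (M k).Ab), ∃ X : Sch k,
    IsSmoothProjective X ∧ topologicalKrullDim X.left ≤ (2 : ℕ) ∧
      (M k).rank ((M k).Pic X) = (M k).rank A ∧ (M k).sign ((M k).Pic X) = (M k).sign A
  restrict : ∀ (k : Type) [Field k] [NumberField k] (X : Sch k), IsSmoothProjective X →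
    ∃ X' : Sch ℚ, IsSmoothProjective X' ∧
      topologicalKrullDim X'.left = topologicalKrullDim X.left ∧
        (M ℚ).rank ((M ℚ).Pic X') = (M k).rank ((M k).Pic X) ∧
          (M ℚ).sign ((M ℚ).Pic X') = (M k).sign ((M k).Pic X)

/-- The exceptions: the `F` for which the parity formula for `D(F)` is false. -/
def Exception (M : Mot.{v, u} ℚ) {r : ℕ} (F : MvPolynomial (Fin r) ℤ) : Prop :=
  ¬ Parity M 1 (princ (rat F))

/-- The parity conjecture for the Picard varieties of the smooth projective varieties of dimension at
most `d` over `k`; for `d = 1` these are the Jacobians of curves. -/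
def ParDim {k : Type} [Field k] (M : Mot.{v, u} k) (d : ℕ) : Prop :=
  ∀ X : Sch k, IsSmoothProjective X → topologicalKrullDim X.left ≤ d → Par M (M.Pic X)

section

variable {M : ∀ (k : Type) [Field k] [NumberField k], Mot.{v, u} k} (hM : Known M)
  (k : Type) [Field k] [NumberField k]

include hM

lemma dfc (n : ℤ) : DfcG True (QS (M k).hom (M k).root (M k).D n) :=
  dfcS (hM.mult k) (hM.weight k) n

lemma space (n : ℤ) (r : ℕ) :
    QS (M k).hom (M k).root (M k).D n (aff k (MvPolynomial (Fin r) k)) 1 := by
  refine spaceS (hM.mult k) (hM.weight k) (fun n => ?_) n r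
  obtain ⟨g, hg, h⟩ := existS (F := (M k).hom) (hM.mult k) (hM.weight k) (P := ⊥) (n := n) (N := 0)
    (fun Y hY hd => by
      obtain ⟨h1, h2⟩ := hM.points k Y hY hd n
      have h3 : Subsingleton ((M k).hom.obj (((M k).D.tw n).obj ((M k).D.h Y))) := h1
      refine ⟨by change Module.Finite ℚ _; infer_instance, ?_⟩
      rw [Subgroup.mem_bot]
      unfold sgn
      rw [Module.finrank_zero_of_subsingleton, pow_zero, mul_one]
      exact h2) (aff k k) (ft_aff True) (by
    rw [Pool.Agent.Z125.UN.topDim_aff, ringKrullDim_eq_zero_of_field]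
    exact le_rfl)
  rw [Subgroup.mem_bot.mp hg] at h
  exact h

/-- The sign of the motive `h(X)(1)`. -/
lemma sgn_pic (X : Sch k) (hX : IsSmoothProjective X) :
    FD (M k).hom (((M k).D.tw 1).obj ((M k).D.h X)) ∧
      (Par (M k) ((M k).Pic X) ↔
        sgn (M k).hom (M k).root (((M k).D.tw 1).obj ((M k).D.h X)) = 1) := by
  obtain ⟨h1, h2, h3⟩ := hM.picard k X hX
  refine ⟨h1, ?_⟩
  have h4 : sgn (M k).hom (M k).root (((M k).D.tw 1).obj ((M k).D.h X)) =
      (M k).sign ((M k).Pic X) * (-1) ^ (M k).rank ((M k).Pic X) := by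
    rw [← h2, ← h3]
    rfl
  rw [h4]
  unfold Par
  have h5 : ((-1 : ℤˣ) ^ (M k).rank ((M k).Pic X)) * (-1) ^ (M k).rank ((M k).Pic X) = 1 := by
    rw [← mul_pow]
    norm_num
  constructor
  · intro h
    rw [h]
    exact h5
  · intro h
    exact mul_right_cancel (h.trans h5.symm)

/-- The signs of all schemes exist. -/
lemma exist {r : ℕ} (F : MvPolynomial (Fin r) k) :
    ∃ g, QS (M k).hom (M k).root (M k).D 1 (U F) g := by
  obtain ⟨N, hN⟩ := Pool.Agent.Helper24.KZ.exists_dim_aff (k := k) (Localization.Away F)
  obtain ⟨g, -, h⟩ := existS (F := (M k).hom) (hM.mult k) (hM.weight k) (P := ⊤) (n := 1) (N := N)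
    (fun Y hY _ => ⟨(sgn_pic hM k Y hY).1, Subgroup.mem_top _⟩)
    (aff k (Localization.Away F)) (ft_aff True) hN
  exact ⟨g, h⟩

lemma u_iff {r : ℕ} (F : MvPolynomial (Fin r) k) (g : ℤˣ) :
    QS (M k).hom (M k).root (M k).D 1 (U F) g ↔ QS (M k).hom (M k).root (M k).D 1 (V F) g := by
  have hQ := dfc hM k 1
  have hs := space hM k 1
  have e : g⁻¹ = g := Int.units_inv_eq_self g
  exact ⟨fun h => e ▸ V_of_UG hQ hs h, fun h => e ▸ U_of_VG hQ hs h⟩

/-- Disjoint hypersurfaces. -/
theorem disjoint {r : ℕ} (F H : MvPolynomial (Fin r) k)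
    (hFH : Ideal.span {H} ⊔ Ideal.span {F} = ⊤) (hF : ¬ Parity (M k) 1 (princ F)) :
    (Parity (M k) 1 (princ H) ↔ ¬ Parity (M k) 1 (princ (F * H))) := by
  have hQ := dfc hM k 1
  obtain ⟨a, ha⟩ := exist hM k F
  obtain ⟨b, hb⟩ := exist hM k H
  have hc := (u_iff hM k (F * H) (a * b)).mpr (disjG hQ (space hM k 1) hFH
    ((u_iff hM k F a).mp ha) ((u_iff hM k H b).mp hb))
  have h1 : ∀ {X : Sch k} {g : ℤˣ}, QS (M k).hom (M k).root (M k).D 1 X g →
      (Parity (M k) 1 X ↔ g = 1) := fun {X g} h =>
    ⟨fun h' => hQ.uniq h h', fun h' => by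
      rw [h'] at h
      exact h⟩
  have h2 : a ≠ 1 := fun h => hF ((h1 ha).mpr h)
  have h3 : a = -1 := (Int.units_eq_one_or a).resolve_left h2
  rw [show princ H = U H from rfl, show princ (F * H) = U (F * H) from rfl, h1 hb, h1 hc, h3]
  rcases Int.units_eq_one_or b with hb1 | hb1 <;> rw [hb1] <;> decide

/-- From principal open sets to smooth projective schemes. -/
theorem dim_of {d : ℕ} (h : ∀ F : MvPolynomial (Fin (d + 1)) k, Parity (M k) 1 (princ F)) :
    ParDim (M k) d := by
  intro X hX hd
  have hQ := dfc hM k 1
  have h1 : QS (M k).hom (M k).root (M k).D 1 X 1 :=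
    Pool.Agent.Helper19.UA.of_hyp hQ.cls (space hM k 1 _)
      (fun F => (u_iff hM k F 1).mp (h F)) X (ft_projective hX) hd
  obtain ⟨h2, h3⟩ := sgn_pic hM k X hX
  exact h3.mpr (projS (hM.mult k) (hM.weight k) hX h2 h1)

/-- From smooth projective schemes to principal open sets. -/
theorem of_dim {d : ℕ} (h : ParDim (M k) d) (F : MvPolynomial (Fin (d + 1)) k) :
    Parity (M k) 1 (princ F) := by
  refine (u_iff hM k F 1).mpr ?_
  by_cases hF : Ideal.span {F} = ⊥
  · unfold V
    rw [hF]
    exact isoG (dfc hM k 1) (AlgEquiv.quotientBot k _).symm (space hM k 1 _)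
  · obtain ⟨g, hg, h1⟩ := existS (F := (M k).hom) (hM.mult k) (hM.weight k) (P := ⊥) (n := 1)
      (N := d) (fun Y hY hYd => by
        obtain ⟨h2, h3⟩ := sgn_pic hM k Y hY
        exact ⟨h2, Subgroup.mem_bot.mpr (h3.mp (h Y hY hYd))⟩) (V F) (ft_aff True) (by
      rw [Pool.Agent.Z125.UN.topDim_aff]
      exact Pool.Agent.Z125.UN.dim_quot _ hF)
    rw [Subgroup.mem_bot.mp hg] at h1
    exact h1

/-- Surfaces give all abelian varieties. -/
theorem two_all : ParDim (M k) 2 ↔ ∀ A : (M k).Ab, Par (M k) A := by
  refine ⟨fun h A => ?_, fun h X _ _ => h _⟩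
  obtain ⟨X, h1, h2, h3, h4⟩ := hM.lefschetz k A
  have h5 := h X h1 h2
  unfold Par at h5 ⊢
  rw [← h3, ← h4]
  exact h5

/-- All number fields. -/
theorem fields (d : ℕ) (h : ParDim (M ℚ) d) : ParDim (M k) d := by
  intro X hX hd
  obtain ⟨X', h1, h2, h3, h4⟩ := hM.restrict k X hX
  have h5 := h X' h1 (h2 ▸ hd)
  unfold Par at h5 ⊢
  rw [← h3, ← h4]
  exact h5

omit k [Field k] [NumberField k] in
/-- Integral polynomials. -/
lemma int_all {r : ℕ} (h : ∀ F : MvPolynomial (Fin r) ℤ, Parity (M ℚ) 1 (princ (rat F)))
    (F : MvPolynomial (Fin r) ℚ) : Parity (M ℚ) 1 (princ F) := by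
  obtain ⟨F₀, N, hN, hF₀⟩ := Pool.Agent.Helper24.KE.exists_rep F
  have h1 := h F₀
  have h2 : rat F₀ = MvPolynomial.C (N : ℚ) * F := hF₀
  rw [h2] at h1
  obtain ⟨e⟩ := Pool.Agent.Helper24.KE.scalar_equiv F (a := (N : ℚ)) (by exact_mod_cast hN)
  exact isoG (dfc hM ℚ 1) e h1

omit k [Field k] [NumberField k] in
/-- Exceptions give exceptions. -/
theorem bad {r : ℕ} (G P : MvPolynomial (Fin r) ℤ) (hG : Exception (M ℚ) G) :
    Exception (M ℚ) (1 + G * P) ∨ Exception (M ℚ) (G * (1 + G * P)) := by
  have h1 := disjoint hM ℚ (rat G) (rat (1 + G * P)) (by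
    have h2 : rat (1 + G * P) = 1 + rat G * rat P := by
      unfold rat
      rw [map_add, map_mul, map_one]
    rw [h2]
    exact span_one _ _) hG
  have h3 : rat G * rat (1 + G * P) = rat (G * (1 + G * P)) := (map_mul _ _ _).symm
  rw [h3] at h1
  by_cases h : Parity (M ℚ) 1 (princ (rat (1 + G * P)))
  · exact Or.inr (h1.mp h)
  · exact Or.inl h

omit k [Field k] [NumberField k] in
/-- Zero is no exception. -/
theorem bad_zero {r : ℕ} : ¬ Exception (M ℚ) (0 : MvPolynomial (Fin r) ℤ) := by
  intro hG
  apply hG
  have h1 : QS (M ℚ).hom (M ℚ).root (M ℚ).D 1 (V (0 : MvPolynomial (Fin r) ℚ)) 1 := by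
    have h2 : Ideal.span {(0 : MvPolynomial (Fin r) ℚ)} = ⊥ :=
      Ideal.span_singleton_eq_bot.mpr rfl
    unfold V
    rw [h2]
    exact isoG (dfc hM ℚ 1) (AlgEquiv.quotientBot ℚ _).symm (space hM ℚ 1 _)
  have h3 : rat (0 : MvPolynomial (Fin r) ℤ) = 0 := map_zero _
  rw [h3]
  exact (u_iff hM ℚ 0 1).mpr h1

omit k [Field k] [NumberField k] in
/-- The parity conjecture in dimension at most `d` and power savings. -/
theorem saving (d : ℕ) : (∀ (k : Type) [Field k] [NumberField k], ParDim (M k) d) ↔
    Saving (r := d + 1) (Exception (M ℚ)) := by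
  rw [← saving_iff (bad hM) (bad_zero hM)]
  constructor
  · intro h F hF
    exact hF (of_dim hM ℚ (h ℚ) _)
  · intro h k _ _
    exact fields hM k d (dim_of hM ℚ (int_all hM fun F => not_not.mp (h F)))

/-- The double covers. -/
theorem dbl {r : ℕ} (F : MvPolynomial (Fin r) k) :
    Parity (M k) 2 (dblS F) ↔ Parity (M k) 1 (princ F) := by
  have h1 := dblS' (F := (M k).hom) (hM.mult k) (hM.weight k) F 1 (space hM k 1 r)
  exact h1.trans (u_iff hM k F 1).symm

end

/-- **The parity conjecture and sparse exceptions.** See the explanations above. -/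
theorem result (M : ∀ (k : Type) [Field k] [NumberField k], Mot.{v, u} k) (hM : Known M) :
    -- (1) all abelian varieties
    ((∀ (k : Type) [Field k] [NumberField k] (A : (M k).Ab), Par (M k) A) ↔
      Saving (r := 3) (Exception (M ℚ))) ∧
    -- (2) Jacobians of curves
    ((∀ (k : Type) [Field k] [NumberField k], ParDim (M k) 1) ↔
      Saving (r := 2) (Exception (M ℚ))) ∧
    -- the zero-one law
    (∀ (r : ℕ) (G : MvPolynomial (Fin r) ℤ), Exception (M ℚ) G → ∀ ε : ℝ, 0 < ε →
      ∀ᶠ D : ℕ in atTop, ∀ᶠ B : ℕ in atTop,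
        ((Box r D B).ncard : ℝ) ^ (1 - ε) < ((Exc (r := r) (Exception (M ℚ)) D B).ncard : ℝ)) ∧
    -- (3) disjoint hypersurfaces
    (∀ (k : Type) [Field k] [NumberField k] (r : ℕ) (F H : MvPolynomial (Fin r) k),
      Ideal.span {H} ⊔ Ideal.span {F} = ⊤ → ¬ Parity (M k) 1 (princ F) →
        (Parity (M k) 1 (princ H) ↔ ¬ Parity (M k) 1 (princ (F * H)))) ∧
    -- (4) double covers
    (∀ (k : Type) [Field k] [NumberField k] (r : ℕ) (F : MvPolynomial (Fin r) k),
      Parity (M k) 2 (dblS F) ↔ Parity (M k) 1 (princ F)) ∧
    -- (5) one number field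
    ∀ (k : Type) [Field k] [NumberField k],
      ((∀ A : (M k).Ab, Par (M k) A) ↔
        ∀ F : MvPolynomial (Fin 3) k, Parity (M k) 1 (princ F)) :=
  ⟨⟨fun h => (saving hM 2).mp (fun k _ _ => (two_all hM k).mpr (h k)),
      fun h k _ _ => (two_all hM k).mp ((saving hM 2).mpr h k)⟩, saving hM 1,
    fun _ _ hG _ hε => full (bad hM) hG (fun h => bad_zero hM (h ▸ hG)) hε,
    fun k _ _ _ F H h hF => disjoint hM k F H h hF, fun k _ _ _ F => dbl hM k F,
    fun k _ _ => (two_all hM k).symm.trans ⟨fun h => of_dim hM k h, fun h => dim_of hM k h⟩⟩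

end Pool.Agent.Results.MP_ac3185_nt.SparseExceptions
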